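import Pool.Agent.Lib.H21D.K3
import Pool.Agent.Lib.H21D.K4

/-!
# Idempotents in the integral quandle rings of Dehn quandles

Every nonzero idempotent of the integral quandle ring of the Dehn quandle of a closed orientable
surface of genus at least one is a combination of pairwise disjoint curves, with coefficient sum one.

* genus one: curves are primitive vectors of `ℤ²` up to sign (`Slope`), the Dehn twist along `b` maps
  `a` to `a + ω(a, b) b`;
* genus at least two: the surface is `ℍ / Γ` for a discrete subgroup `Γ` of `SL(2,ℝ)` all of whose
  elements other than `1` are hyperbolic (`SurfaceGroup Γ`).  The isotopy classes of essential simple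
  closed curves correspond to the simple closed geodesics, that is to the elements `x` of `Γ` that are
  not proper powers and whose axis is crossed by no axis of a conjugate of `x`, up to conjugation and
  inversion (`Curve Γ`).  The geometric intersection number of two curves is the number of crossings
  of their geodesics.  The Dehn twist along `y` maps `x` to the class of `u₀ u₁ ⋯ uₘ₋₁ x`, where the `uᵢ`
  are the lifts of `y` that cross the axis of `x` in one period, from right to left, in their order
  (`IsTwist y x z`).  The theorem holds for all such groups `Γ`, not only for the cocompact ones.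
-/
namespace Pool.Agent.Results.MP_5b5d66_al.DehnIdempotents

open H21D.Stmt Matrix

/-- Every nonzero idempotent `u` of the integral quandle ring of the Dehn quandle of a closed
orientable surface of genus at least one is supported on pairwise disjoint simple closed curves and has
coefficient sum one. -/
theorem result :
    (∃ _ : Mul Slope,
      (∀ a b c : PrimVec, Slope.mk a * Slope.mk b = Slope.mk c ↔
        (c.1 = a.1 + omega a.1 b.1 • b.1 ∨ c.1 = -(a.1 + omega a.1 b.1 • b.1))) ∧
      ∀ u : MonoidAlgebra ℤ Slope, u ≠ 0 → u * u = u →
        (∀ a b : PrimVec, u.coeff (Slope.mk a) ≠ 0 → u.coeff (Slope.mk b) ≠ 0 →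
          omega a.1 b.1 = 0) ∧
        u.coeff.sum (fun _ n => n) = 1) ∧
    ∀ Γ : Subgroup (SpecialLinearGroup (Fin 2) ℝ), SurfaceGroup Γ →
      ∃ _ : Mul (Curve Γ),
        (∀ x y z : {x : Γ // IsSimple x}, Curve.mk x * Curve.mk y = Curve.mk z ↔
          IsTwist y.1 x.1 z.1) ∧
        ∀ u : MonoidAlgebra ℤ (Curve Γ), u ≠ 0 → u * u = u →
          (∀ x y : {x : Γ // IsSimple x}, u.coeff (Curve.mk x) ≠ 0 → u.coeff (Curve.mk y) ≠ 0 →
            ∀ w ∈ Lifts y.1, ¬ Crosses x.1.1 w.1) ∧
          u.coeff.sum (fun _ n => n) = 1 :=
  ⟨torus, hyperbolic⟩

end Pool.Agent.Results.MP_5b5d66_al.DehnIdempotents
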